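import Mathlib

/-!
# MP_f8e877_nt: the congruence (c), with the factor `B_k` as posed, fails for `p = 11`

The sum in (c) is `∑_{k<p} (35k+9) C(2k,k)^2 (-512)^(-k) T_{3k}(6,1)`. For `p = 11` the difference of the
two sides is not even divisible by `p`.
-/

set_option autoImplicit false

namespace Pool.Agent.Results.MP_f8e877_nt.PartCFailsAtEleven

open Finset

/-- The generalized central trinomial coefficient
`T_n(b,c) = ∑_{j ≤ n/2} C(n,2j) C(2j,j) b^(n-2j) c^j`. -/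
def T (b c : ℤ) (n : ℕ) : ℤ :=
  ∑ j ∈ range (n / 2 + 1), (n.choose (2 * j) : ℤ) * ((2 * j).choose j : ℤ) * b ^ (n - 2 * j) * c ^ j

/-- `B_k = C(2k,k)^2`. -/
def B (k : ℕ) : ℚ := ((2 * k).choose k : ℚ) ^ 2

/-- `v_k = (-512)^(-k) T_{3k}(6,1)`. -/
def v (k : ℕ) : ℚ := (T 6 1 (3 * k) : ℚ) / (-512) ^ k

/-- `a ≡ b (mod p^m)` for rationals: `(a - b) / p^m` has denominator prime to `p`. -/
def CongMod (p m : ℕ) (a b : ℚ) : Prop := Nat.Coprime ((a - b) / (p : ℚ) ^ m).den p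

/-- The congruence (c) of the problem for the prime `p`:
`∑_{k<p} (35k+9) B_k v_k ≡ (9/32) p (2/p) (25 + 7 (p/7)) (mod p^2)`. -/
def PartC (p : ℕ) [Fact p.Prime] : Prop :=
  CongMod p 2 (∑ k ∈ range p, (35 * (k : ℚ) + 9) * B k * v k)
    (9 / 32 * (p : ℚ) * (legendreSym p 2 : ℚ) * (25 + 7 * (jacobiSym (p : ℤ) 7 : ℚ)))

/-- The congruence (c) fails for the prime `p = 11 > 7`, even modulo `p` in place of `p ^ 2`. So not all of the
statements (a), (b), (c) hold for all primes `p > 7`. -/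
theorem result : ∃ p : ℕ, ∃ _ : Fact p.Prime, 7 < p ∧ ¬ PartC p ∧
    ¬ CongMod p 1 (∑ k ∈ range p, (35 * (k : ℚ) + 9) * B k * v k)
      (9 / 32 * (p : ℚ) * (legendreSym p 2 : ℚ) * (25 + 7 * (jacobiSym (p : ℤ) 7 : ℚ))) := by
  have F : Fact (Nat.Prime 11) := ⟨by norm_num⟩
  have hl : legendreSym 11 2 = -1 := by norm_num
  have hj : jacobiSym ((11 : ℕ) : ℤ) 7 = 1 := by norm_num
  have h0 : T 6 1 (3 * 0) = 1 := by decide +kernel
  refine ⟨11, F, by norm_num, ?_, ?_⟩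
  · unfold PartC CongMod
    rw [hl, hj]
    decide +kernel
  · unfold CongMod
    rw [hl, hj]
    decide +kernel

end Pool.Agent.Results.MP_f8e877_nt.PartCFailsAtEleven
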